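import Pool.Agent.Q294.SC.Core

/-!
# Monochromatic matchings in `s`-connector hypergraphs

An `r`-uniform hypergraph is an `s`-connector if it has an edge across every choice of `r` pairwise
disjoint sets of at least `s` vertices. Let `q ≥ 1`, `r ≥ 2`. We prove that there is a function
`φ : (0, 1] → (0, ∞)` with `φ (x) → 0` for `x → 0` such that for all `s ≥ 1`, `t_1, …, t_q ≥ 1` and
`n ≥ s` with `n ≥ (r - 1) max t_j + ∑ (t_j - 1) + 1 + n φ (s / n)`, every `q`-colouring of the edges
of an `r`-uniform `s`-connector with `n` vertices has `t_j` pairwise disjoint edges of colour `j`, for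
some `j`. This is the full answer to Q1.

Proof.
1. A regularity lemma for connectors (`SC/Reg.lean`). For a partition of the vertices, an `r`-tuple of
   parts `W_1, …, W_r` and a colour `j`, either there is no edge of colour `j` across, or there is
   one across all subsets `B_i` of `W_i` with `|B_i| ≥ ε |W_i|`, or the tuple is undecided. If the
   undecided tuples contain many `r`-tuples of vertices, refine the partition by the witnesses: the
   number of `r`-tuples of vertices in tuples of parts without edges of colour `j` across grows. So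
   after boundedly many steps there is a partition into boundedly many parts with few undecided
   tuples.
2. If there are no `t_j` disjoint edges of colour `j`, the greedy algorithm and linear programming
   duality (`SC/Dual.lean`) give weights `y_j ∈ [0, 1]` for the vertices with sum at most
   `(t_j + O (1)) / (1 - ε)` and with `∑ y_j ≥ 1` on all tuples of parts connected in colour `j`.
   Since the hypergraph is an `s`-connector, almost every `r`-set of vertices has a colour `j` for
   which its weight `y_j` is at least one.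
3. A large constant number `G` of random vertices gives a `q`-colouring of all the `r`-subsets
   of a set of size `G` (`SC/Sample.lean`) to which the theorem of Alon, Frankl and Lovász applies
   with sizes about `G (∑ y_j) / n`. The case needed of this theorem, in which one of the sizes is about a
   power of two, is proved from Kneser's conjecture (Lovász's theorem), and this is proved from
   Tucker's lemma for sign vectors (`SC/Kneser.lean`, `SC/AFL.lean`).
-/

set_option autoImplicit false

namespace Pool.Agent.Results.MP_d738f8_co.Connectors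

open Filter Topology

/-- An `r`-uniform hypergraph with vertex set `V`. -/
structure Hypergraph (V : Type) (r : ℕ) where
  /-- the edges -/
  edges : Set (Finset V)
  uniform : ∀ e ∈ edges, e.card = r

/-- `H` is an `s`-connector: whenever `A_1, …, A_r` are pairwise disjoint sets of at least `s`
vertices, some edge `{v_1, …, v_r}` has `v_i ∈ A_i` for all `i`. -/
def IsConnector {V : Type} {r : ℕ} (H : Hypergraph V r) (s : ℕ) : Prop :=
  ∀ A : Fin r → Finset V, (∀ i j, i ≠ j → Disjoint (A i) (A j)) → (∀ i, s ≤ (A i).card) →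
    ∃ v : Fin r → V, (∀ i, v i ∈ A i) ∧ ∃ e ∈ H.edges, (e : Set V) = Set.range v

/-- `H → (t_1, …, t_q) K_r^r`: for every colouring of the edges of `H` with `q` colours there are a
colour `j` and `t_j` pairwise disjoint edges of colour `j`. -/
def Arrows {V : Type} {r q : ℕ} (H : Hypergraph V r) (t : Fin q → ℕ) : Prop :=
  ∀ c : H.edges → Fin q, ∃ (j : Fin q) (M : Finset H.edges), M.card = t j ∧
    (∀ e ∈ M, c e = j) ∧ ∀ e ∈ M, ∀ f ∈ M, e ≠ f → Disjoint (e : Finset V) (f : Finset V)

/-- the statement for one value `ε` of `φ (x)` -/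
def Good (q r : ℕ) (x ε : ℝ) : Prop :=
  ∀ (V : Type) [Fintype V] (H : Hypergraph V r) (s : ℕ) (t : Fin q → ℕ), 1 ≤ s →
    (∀ j, 1 ≤ t j) → s ≤ Fintype.card V → IsConnector H s → (s : ℝ) / Fintype.card V = x →
    ((r : ℝ) - 1) * ((Finset.univ.sup t : ℕ) : ℝ) + ∑ j, ((t j : ℝ) - 1) + 1 +
      Fintype.card V * ε ≤ Fintype.card V → Arrows H t

theorem Good.mono {q r : ℕ} {x ε ε' : ℝ} (h : Good q r x ε) (hε : ε ≤ ε') : Good q r x ε' := by
  intro V _ H s t h1 h2 h3 h4 h5 h6
  refine h V H s t h1 h2 h3 h4 h5 (le_trans ?_ h6)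
  have := mul_le_mul_of_nonneg_left hε (by positivity : (0 : ℝ) ≤ Fintype.card V)
  linarith

theorem good_one {q r : ℕ} (hr : 1 ≤ r) (x : ℝ) : Good q r x 1 := by
  intro V _ H s t h1 h2 h3 h4 h5 h6
  exfalso
  have h7 : (1 : ℝ) ≤ r := by exact_mod_cast hr
  have h8 : 0 ≤ ((r : ℝ) - 1) * ((Finset.univ.sup t : ℕ) : ℝ) :=
    mul_nonneg (by linarith) (by positivity)
  have h9 : 0 ≤ ∑ j, ((t j : ℝ) - 1) := Finset.sum_nonneg (fun j _ => by
    have : (1 : ℝ) ≤ t j := by exact_mod_cast h2 j
    linarith)
  linarith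

theorem good_small {q r : ℕ} (hq : 1 ≤ q) (hr : 1 ≤ r) {ε : ℝ} (hε : 0 < ε) :
    ∃ x0 : ℝ, 0 < x0 ∧ ∀ x ≤ x0, Good q r x ε := by
  classical
  obtain ⟨x0, hx0, hmain⟩ := Pool.Agent.Q294.SC.core (q := q) (r := r) hq hr hε
  refine ⟨x0, hx0, ?_⟩
  intro x hx V _ H s t h1 h2 h3 h4 h5 h6 c
  have hn : (0 : ℝ) < Fintype.card V := by
    have : 0 < Fintype.card V := by omega
    exact_mod_cast this
  have hs : (s : ℝ) ≤ x0 * Fintype.card V := by
    rw [← h5, div_le_iff₀ hn] at hx
    exact hx
  obtain ⟨j, M, hM1, hM2, hM3⟩ := hmain V (fun e => e ∈ H.edges) s h1 hs (by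
    intro A hA hAs
    obtain ⟨v, hv, e, he, hev⟩ := h4 A hA hAs
    refine ⟨v, hv, ?_⟩
    have : Finset.univ.image v = e := by
      apply Finset.coe_injective
      rw [hev]
      simp
    rw [this]
    exact he) t (Finset.univ.sup t) h2 (fun j => Finset.le_sup (Finset.mem_univ j)) h6
    (fun e => if h : e ∈ H.edges then c ⟨e, h⟩ else ⟨0, hq⟩)
  refine ⟨j, M.attach.image (fun e => (⟨e.1, (hM2 e.1 e.2).1⟩ : H.edges)), ?_, ?_, ?_⟩
  · rw [Finset.card_image_of_injective, Finset.card_attach, hM1]
    intro a b hab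
    have h8 := congrArg (fun z : H.edges => z.1) hab
    exact Subtype.ext h8
  · intro e he
    obtain ⟨a, _, rfl⟩ := Finset.mem_image.1 he
    have h7 := (hM2 a.1 a.2).2
    rw [dif_pos (hM2 a.1 a.2).1] at h7
    exact h7
  · intro e he f hf hne
    obtain ⟨a, _, rfl⟩ := Finset.mem_image.1 he
    obtain ⟨b, _, rfl⟩ := Finset.mem_image.1 hf
    exact hM3 a.1 a.2 b.1 b.2 (fun h => hne (Subtype.ext h))

/-- **Main theorem**: the answer to Q1 is yes. -/
theorem result (q r : ℕ) (hq : 1 ≤ q) (hr : 2 ≤ r) :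
    ∃ φ : ℝ → ℝ, (∀ x, 0 < x → x ≤ 1 → 0 < φ x) ∧ Tendsto φ (𝓝[>] 0) (𝓝 0) ∧
      ∀ (V : Type) [Fintype V] (H : Hypergraph V r) (s : ℕ) (t : Fin q → ℕ),
        1 ≤ s → (∀ j, 1 ≤ t j) → s ≤ Fintype.card V → IsConnector H s →
        ((r : ℝ) - 1) * ((Finset.univ.sup t : ℕ) : ℝ) + ∑ j, ((t j : ℝ) - 1) + 1 +
          Fintype.card V * φ ((s : ℝ) / Fintype.card V) ≤ Fintype.card V →
        Arrows H t := by
  have hr1 : 1 ≤ r := by omega
  set S : ℝ → Set ℝ := fun x => {ε | 0 ≤ ε ∧ Good q r x ε} with hS
  have hne : ∀ x, (S x).Nonempty := fun x => ⟨1, zero_le_one, good_one hr1 x⟩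
  have hbd : ∀ x, BddBelow (S x) := fun x => ⟨0, fun ε hε => hε.1⟩
  refine ⟨fun x => sInf (S x) + |x|, ?_, ?_, ?_⟩
  · intro x hx _
    have h1 : 0 ≤ sInf (S x) := le_csInf (hne x) (fun ε hε => hε.1)
    have h2 : 0 < |x| := abs_pos.2 hx.ne'
    linarith
  · rw [Metric.tendsto_nhdsWithin_nhds]
    intro ε hε
    obtain ⟨x0, hx0, hgood⟩ := good_small (q := q) (r := r) hq hr1 (half_pos hε)
    refine ⟨min x0 (ε / 2), lt_min hx0 (half_pos hε), ?_⟩
    intro x hx hxd
    rw [Set.mem_Ioi] at hx
    rw [Real.dist_eq, sub_zero, abs_of_pos hx] at hxd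
    have h1 : 0 ≤ sInf (S x) := le_csInf (hne x) (fun ε hε => hε.1)
    have h2 : sInf (S x) ≤ ε / 2 :=
      csInf_le (hbd x) ⟨(half_pos hε).le, hgood x (hxd.le.trans (min_le_left _ _))⟩
    have h3 : x < ε / 2 := hxd.trans_le (min_le_right _ _)
    rw [Real.dist_eq, sub_zero, abs_of_pos hx, abs_of_nonneg (by linarith)]
    linarith
  · intro V _ H s t h1 h2 h3 h4 h5
    have hn : (0 : ℝ) < Fintype.card V := by
      have : 0 < Fintype.card V := by omega
      exact_mod_cast this
    set x : ℝ := (s : ℝ) / Fintype.card V with hx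
    have hx0 : 0 < x := by
      have : (0 : ℝ) < s := by exact_mod_cast h1
      positivity
    have hlt : sInf (S x) < sInf (S x) + |x| := by
      have : 0 < |x| := abs_pos.2 hx0.ne'
      linarith
    obtain ⟨ε, hε, hεlt⟩ := exists_lt_of_csInf_lt (hne x) hlt
    exact (hε.2.mono hεlt.le) V H s t h1 h2 h3 h4 hx.symm h5

end Pool.Agent.Results.MP_d738f8_co.Connectors
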